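import Pool.Agent.H85.KS2.Targets

/-! MP2 of the board ks2_modules: the minor part in `l^2` (mean value version). -/

set_option autoImplicit false

open scoped BigOperators

noncomputable section

namespace Pool.Agent.H81.KS2

open Pool.Agent.H98.KS Pool.Agent.H85.KS2 MeasureTheory

private theorem measurableSet_MinS (k X : ℕ) : MeasurableSet (MinS k X) := by
  have h : MinS k X = Set.Ici 0 ∩ (Set.Iic 1 ∩ ⋂ (q : ℕ) (_ : 1 ≤ q)
      (_ : (q : ℝ) ≤ (X : ℝ) ^ ((1 : ℝ) / 20)) (a : ℤ),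
      {θ : ℝ | (X : ℝ) ^ ((1 : ℝ) / 20) / (X : ℝ) ^ k < |θ - a / q|}) := by
    ext θ
    simp only [MinS, Set.mem_ofPred_eq, Set.mem_inter_iff, Set.mem_Ici, Set.mem_Iic, Set.mem_iInter]
  rw [h]
  refine measurableSet_Ici.inter (measurableSet_Iic.inter ?_)
  refine MeasurableSet.iInter fun q => MeasurableSet.iInter fun _ => MeasurableSet.iInter fun _ =>
    MeasurableSet.iInter fun a => ?_
  exact (isOpen_lt continuous_const (by fun_prop)).measurableSet

private theorem MinS_subset (k X : ℕ) : MinS k X ⊆ Set.Icc 0 1 := fun _ h => ⟨h.1, h.2.1⟩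

private theorem intOn {g : ℝ → ℝ} (hg : Continuous g) (k X : ℕ) : IntegrableOn g (MinS k X) :=
  (hg.continuousOn.integrableOn_compact isCompact_Icc).mono_set (MinS_subset k X)

/-- the integral inequality of Minkowski for sums of squares -/
private theorem mink {ι : Type} (S : Finset ι) (E : Set ℝ) (hE : MeasurableSet E)
    (f : ι → ℝ → ℝ) (g : ℝ → ℝ) (c : ℝ) (hc : 0 ≤ c) (hf : ∀ x ∈ S, IntegrableOn (f x) E)
    (hg : IntegrableOn g E) (hg0 : ∀ θ, 0 ≤ g θ)
    (hfg : ∀ θ ∈ E, ∑ x ∈ S, f x θ ^ 2 ≤ c * g θ ^ 2) :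
    ∑ x ∈ S, (∫ θ in E, f x θ) ^ 2 ≤ c * (∫ θ in E, g θ) ^ 2 := by
  set H : ι → ℝ := fun x => ∫ θ in E, f x θ with hH
  set A : ℝ := ∑ x ∈ S, H x ^ 2 with hA
  set G : ℝ := ∫ θ in E, g θ with hG
  have hA0 : 0 ≤ A := Finset.sum_nonneg fun x _ => sq_nonneg _
  have hG0 : 0 ≤ G := integral_nonneg fun θ => hg0 θ
  have h1 : A = ∫ θ in E, ∑ x ∈ S, H x * f x θ := by
    have e1 : ∫ θ in E, ∑ x ∈ S, H x * f x θ = ∑ x ∈ S, ∫ θ in E, H x * f x θ :=
      integral_finsetSum S fun x hx => (hf x hx).const_mul (H x)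
    rw [e1, hA]
    refine Finset.sum_congr rfl fun x _ => ?_
    rw [integral_const_mul, sq]
  have h2 : ∫ θ in E, ∑ x ∈ S, H x * f x θ ≤ ∫ θ in E, (Real.sqrt A * Real.sqrt c) * g θ := by
    refine setIntegral_mono_on ?_ (hg.const_mul _) hE ?_
    · exact integrable_finsetSum S fun x hx => (hf x hx).const_mul (H x)
    · intro θ hθ
      refine (Real.sum_mul_le_sqrt_mul_sqrt S H (fun x => f x θ)).trans ?_
      have h3 : Real.sqrt (∑ x ∈ S, f x θ ^ 2) ≤ Real.sqrt c * g θ := by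
        refine (Real.sqrt_le_sqrt (hfg θ hθ)).trans ?_
        rw [Real.sqrt_mul hc, Real.sqrt_sq (hg0 θ)]
      calc Real.sqrt (∑ x ∈ S, H x ^ 2) * Real.sqrt (∑ x ∈ S, f x θ ^ 2)
          ≤ Real.sqrt A * (Real.sqrt c * g θ) :=
            mul_le_mul_of_nonneg_left h3 (Real.sqrt_nonneg _)
        _ = Real.sqrt A * Real.sqrt c * g θ := by ring
  rw [integral_const_mul, ← h1] at h2
  have h4 : Real.sqrt A * Real.sqrt A = A := Real.mul_self_sqrt hA0
  have h5 : Real.sqrt c * Real.sqrt c = c := Real.mul_self_sqrt hc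
  rcases (Real.sqrt_nonneg A).eq_or_lt with h6 | h6
  · rw [← h6, mul_zero] at h4
    rw [← h4]
    positivity
  · have h7 : Real.sqrt A ≤ Real.sqrt c * G := by
      have h8 : Real.sqrt A * Real.sqrt A ≤ Real.sqrt A * (Real.sqrt c * G) := by
        rw [h4]
        linarith
      exact le_of_mul_le_mul_left h8 h6
    calc A = Real.sqrt A * Real.sqrt A := h4.symm
      _ ≤ (Real.sqrt c * G) * (Real.sqrt c * G) :=
          mul_le_mul h7 h7 h6.le (by positivity)
      _ = (Real.sqrt c * Real.sqrt c) * G ^ 2 := by ring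
      _ = c * G ^ 2 := by rw [h5]

private theorem cont_ee (c : ℝ) : Continuous fun θ : ℝ => ee (θ * c) := by
  unfold ee
  fun_prop

private theorem cont_KF (k : ℕ) {d : ℕ} (F : Finset (Fin d → ℤ)) (X : ℕ) (x : Fin d → ℤ) :
    Continuous fun θ : ℝ => ‖KF k F X θ x‖ := by
  unfold KF
  exact (continuous_finsetSum _ fun y _ => cont_ee _).norm

private theorem ee_mul (a b : ℝ) : ee a * ee b = ee (a + b) := by
  unfold ee
  rw [← Complex.exp_add]
  congr 1
  push_cast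
  ring

theorem ks2_MP2 (hPK : T_PK) (hSP : T_SP) (hKC : T_KC) (hMA : T_MA) : T_MP2 := by
  classical
  intro k d hk hd
  obtain ⟨δ, C, hδ, hδ1, hC, hmin⟩ := hMA k d hk hd
  refine ⟨δ, C ^ 2, hδ, hδ1, by positivity, ?_⟩
  intro X F S hX
  obtain ⟨g, hgc, hg0, hgS, hgI⟩ := hmin X hX
  have hd0 : d ≠ 0 := by omega
  have key : ∀ θ ∈ MinS k X, ∑ x ∈ S, ‖KF k F X θ x‖ ^ 2 ≤ (F.card : ℝ) * g θ ^ 2 := by
    intro θ hθ
    have h1 := hPK d {0} (fun _ => bx d (-(X : ℤ)) X)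
      (fun _ y => ∏ i, ee (θ * (((y i).natAbs ^ k : ℕ) : ℝ))) F S
      (Set.indicator (F : Set (Fin d → ℤ)) (fun _ => 1)) (g θ ^ 2) ?_ ?_
    · rw [Finset.sum_singleton] at h1
      have h2 : ∑ x ∈ F, ‖(Set.indicator (F : Set (Fin d → ℤ)) (fun _ => (1 : ℂ))) x‖ ^ 2 =
          (F.card : ℝ) := by
        rw [Finset.card_eq_sum_ones, Nat.cast_sum]
        refine Finset.sum_congr rfl fun x hx => ?_
        rw [Set.indicator_of_mem (Finset.mem_coe.2 hx)]
        simp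
      rw [h2, mul_comm] at h1
      refine le_trans (le_of_eq ?_) h1
      refine Finset.sum_congr rfl fun x _ => ?_
      rw [hKC k d X F θ x]
    · intro ξ
      rw [Finset.sum_singleton, hSP d X (fun n => ee (θ * ((n.natAbs ^ k : ℕ) : ℝ))) ξ]
      have h3 : ∀ i : Fin d, ∑ n ∈ Finset.Icc (-(X : ℤ)) X,
          ee (θ * ((n.natAbs ^ k : ℕ) : ℝ)) * ee (-(n * ξ i)) = Ss k X θ (ξ i) := by
        intro i
        unfold Ss
        refine Finset.sum_congr rfl fun n _ => ?_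
        rw [ee_mul]
        rfl
      rw [Finset.prod_congr rfl fun i _ => h3 i, norm_prod]
      have h5 : 0 ≤ ∏ i : Fin d, ‖Ss k X θ (ξ i)‖ := Finset.prod_nonneg fun i _ => norm_nonneg _
      have h4 : ∏ i : Fin d, ‖Ss k X θ (ξ i)‖ ≤ g θ := by
        refine (pow_le_pow_iff_left₀ h5 (hg0 θ) hd0).1 ?_
        rw [← Finset.prod_pow]
        calc ∏ i : Fin d, ‖Ss k X θ (ξ i)‖ ^ d ≤ ∏ _i : Fin d, g θ :=
              Finset.prod_le_prod (fun i _ => by positivity) fun i _ => hgS θ hθ (ξ i)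
          _ = g θ ^ d := by rw [Finset.prod_const, Finset.card_univ, Fintype.card_fin]
      exact pow_le_pow_left₀ h5 h4 2
    · intro x hx
      exact Set.indicator_of_notMem (fun h => hx (Finset.mem_coe.1 h)) _
  have hc : ∀ x, Continuous fun θ : ℝ => ‖KF k F X θ x‖ := cont_KF k F X
  have h1 := mink S (MinS k X) (measurableSet_MinS k X) (fun x θ => ‖KF k F X θ x‖) g
    (F.card : ℝ) (Nat.cast_nonneg _) (fun x _ => intOn (hc x) k X) (intOn hgc k X) hg0 key
  refine h1.trans ?_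
  have h2 : 0 ≤ ∫ θ in MinS k X, g θ := integral_nonneg fun θ => hg0 θ
  calc (F.card : ℝ) * (∫ θ in MinS k X, g θ) ^ 2
      ≤ (F.card : ℝ) * (C * (X : ℝ) ^ ((d : ℝ) - k - δ)) ^ 2 :=
        mul_le_mul_of_nonneg_left (pow_le_pow_left₀ h2 hgI 2) (Nat.cast_nonneg _)
    _ = C ^ 2 * (X : ℝ) ^ (2 * ((d : ℝ) - k - δ)) * F.card := by
        rw [mul_pow, ← Real.rpow_natCast ((X : ℝ) ^ ((d : ℝ) - k - δ)) 2,
          ← Real.rpow_mul (by positivity)]
        push_cast
        rw [mul_comm ((d : ℝ) - k - δ) 2]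
        ring

end Pool.Agent.H81.KS2
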