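import Pool.Agent.H85.KS2.Targets

/-! ZU of the board ks2_modules: from `v` to `w`. -/

set_option autoImplicit false

open scoped BigOperators

noncomputable section

namespace Pool.Agent.H81.KS2

open Pool.Agent.H98.KS Pool.Agent.H85.KS2 MeasureTheory

theorem ks2_ZU (hV2 : T_V2) (hLG : T_LG) : T_ZU := by
  intro k v w _ hvw hZ ε hε
  obtain ⟨C, hC, hZ'⟩ := hZ (ε / 2) (by positivity)
  obtain ⟨C', hC', hL'⟩ := hLG (2 * (w - v)) (ε / 2) (by positivity)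
  refine ⟨C' * 17 ^ (2 * (w - v)) * C, by positivity, ?_⟩
  intro L hL
  have hL0 : (0 : ℝ) < L := by exact_mod_cast hL
  have hL1 : (1 : ℝ) ≤ L := by exact_mod_cast hL
  set B : ℝ := LG L * (16 * L + 1) with hB
  have hLG0 : 0 ≤ LG L := by
    unfold LG
    have := Real.log_nonneg (show (1 : ℝ) ≤ 16 * L + 1 by linarith)
    linarith
  have hB0 : 0 ≤ B := by positivity
  have hcont : ∀ u : ℕ, Continuous fun θ : ℝ => ZV k L u θ := by
    intro u
    unfold ZV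
    exact continuous_finsetSum _ fun h _ => ((hV2 k L h hL).2).pow u
  have hZV0 : ∀ (u : ℕ) (θ : ℝ), 0 ≤ ZV k L u θ := by
    intro u θ
    unfold ZV
    exact Finset.sum_nonneg fun h _ => pow_nonneg ((hV2 k L h hL).1 θ).1 _
  have hle : ∀ θ : ℝ, ZV k L w θ ≤ B ^ (w - v) * ZV k L v θ := by
    intro θ
    unfold ZV
    rw [Finset.mul_sum]
    refine Finset.sum_le_sum fun h _ => ?_
    obtain ⟨h1, h2⟩ := (hV2 k L h hL).1 θ
    calc VV k L θ h ^ w = VV k L θ h ^ (w - v) * VV k L θ h ^ v := by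
          rw [← pow_add, Nat.sub_add_cancel hvw]
      _ ≤ B ^ (w - v) * VV k L θ h ^ v :=
          mul_le_mul_of_nonneg_right (pow_le_pow_left₀ h1 h2 _) (pow_nonneg h1 _)
  have hI : ∫ θ in (0 : ℝ)..1, ZV k L w θ ^ 2 ≤
      B ^ (2 * (w - v)) * ∫ θ in (0 : ℝ)..1, ZV k L v θ ^ 2 := by
    rw [← intervalIntegral.integral_const_mul]
    refine intervalIntegral.integral_mono_on zero_le_one
      (((hcont w).pow 2).intervalIntegrable _ _)
      ((((hcont v).pow 2).const_mul _).intervalIntegrable _ _) fun θ _ => ?_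
    calc ZV k L w θ ^ 2 ≤ (B ^ (w - v) * ZV k L v θ) ^ 2 :=
          pow_le_pow_left₀ (hZV0 w θ) (hle θ) 2
      _ = B ^ (2 * (w - v)) * ZV k L v θ ^ 2 := by
          rw [mul_pow, ← pow_mul, mul_comm (w - v) 2]
  have hBB : B ^ (2 * (w - v)) ≤
      C' * 17 ^ (2 * (w - v)) * (L : ℝ) ^ (ε / 2 + ((2 * (w - v) : ℕ) : ℝ)) := by
    have h1 : (16 * (L : ℝ) + 1) ^ (2 * (w - v)) ≤ (17 * (L : ℝ)) ^ (2 * (w - v)) :=
      pow_le_pow_left₀ (by positivity) (by linarith) _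
    calc B ^ (2 * (w - v)) = LG L ^ (2 * (w - v)) * (16 * (L : ℝ) + 1) ^ (2 * (w - v)) := by
          rw [hB, mul_pow]
      _ ≤ (C' * (L : ℝ) ^ (ε / 2)) * (17 * (L : ℝ)) ^ (2 * (w - v)) :=
          mul_le_mul (hL' L hL) h1 (by positivity) (by positivity)
      _ = C' * 17 ^ (2 * (w - v)) * (L : ℝ) ^ (ε / 2 + ((2 * (w - v) : ℕ) : ℝ)) := by
          rw [mul_pow, Real.rpow_add hL0, Real.rpow_natCast]
          ring
  have hZ0 : 0 ≤ ∫ θ in (0 : ℝ)..1, ZV k L v θ ^ 2 :=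
    intervalIntegral.integral_nonneg zero_le_one fun θ _ => sq_nonneg _
  calc ∫ θ in (0 : ℝ)..1, ZV k L w θ ^ 2
      ≤ B ^ (2 * (w - v)) * ∫ θ in (0 : ℝ)..1, ZV k L v θ ^ 2 := hI
    _ ≤ (C' * 17 ^ (2 * (w - v)) * (L : ℝ) ^ (ε / 2 + ((2 * (w - v) : ℕ) : ℝ))) *
          (C * (L : ℝ) ^ (2 * (v : ℝ) + 2 - k + ε / 2)) :=
        mul_le_mul hBB (hZ' L hL) hZ0 (by positivity)
    _ = C' * 17 ^ (2 * (w - v)) * C * ((L : ℝ) ^ (ε / 2 + ((2 * (w - v) : ℕ) : ℝ)) *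
          (L : ℝ) ^ (2 * (v : ℝ) + 2 - k + ε / 2)) := by ring
    _ = C' * 17 ^ (2 * (w - v)) * C * (L : ℝ) ^ (2 * (w : ℝ) + 2 - k + ε) := by
        rw [← Real.rpow_add hL0]
        congr 2
        push_cast [Nat.cast_sub hvw]
        ring

end Pool.Agent.H81.KS2
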